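import Pool.Agent.TH266.UM.Stmts
import Pool.Agent.TH641.NW.Win

/-! N13, GEOS: from the rows to independence in the plane. -/

set_option autoImplicit false

namespace Pool.Agent.TH761.UM

open Finset Pool.Agent.TH176.Nag Pool.Agent.TH603.Sur Pool.Agent.TH603.Cut Pool.Agent.TH266.UM

/-- the region after the absorption of a point of multiplicity `e` -/
def RS (lam : ℝ) (d e : ℕ) : Set (ℤ × ℤ) :=
  {p | 0 ≤ p.2 ∧ LL lam d e p.2.toNat ≤ p.1 ∧ p.1 ≤ UU lam d p.2.toNat}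

/-- left end of a row of the Tate triangle -/
noncomputable def al (lam : ℝ) (d : ℕ) (j : ℤ) : ℤ := ⌈-(lam * ((d : ℝ) / 3 - j))⌉

theorem LL_eq (lam : ℝ) (d e J : ℕ) : LL lam d e J = al lam d J + ((e - J : ℕ) : ℤ) := by
  unfold LL al
  simp

/-- the exponents absorbed -/
noncomputable def tri (lam : ℝ) (d e : ℕ) : Finset (ℤ × ℤ) :=
  ((range e).sigma fun j => range (e - j)).image
    fun q : (Σ _ : ℕ, ℕ) => ((al lam d (q.1 : ℤ) + (q.2 : ℤ), (q.1 : ℤ)) : ℤ × ℤ)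

theorem mem_tri {lam : ℝ} {d e : ℕ} {p : ℤ × ℤ} : p ∈ tri lam d e ↔
    ∃ j i : ℕ, j < e ∧ i < e - j ∧ p = (al lam d (j : ℤ) + (i : ℤ), (j : ℤ)) := by
  unfold tri
  rw [mem_image]
  constructor
  · rintro ⟨⟨j, i⟩, h, rfl⟩
    rw [mem_sigma, mem_range, mem_range] at h
    exact ⟨j, i, h.1, h.2, rfl⟩
  · rintro ⟨j, i, h1, h2, rfl⟩
    exact ⟨⟨j, i⟩, by rw [mem_sigma, mem_range, mem_range]; exact ⟨h1, h2⟩, rfl⟩

theorem card_tri (lam : ℝ) (d e : ℕ) : (tri lam d e).card = (e + 1).choose 2 := by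
  unfold tri
  rw [card_image_of_injOn]
  · rw [card_sigma]
    simp only [card_range]
    have h1 : ∑ j ∈ range e, (e - j) = ∑ j ∈ range e, (j + 1) := by
      rw [← sum_range_reflect (fun j => j + 1) e]
      refine sum_congr rfl fun j hj => ?_
      rw [mem_range] at hj
      omega
    have h2 : ∑ j ∈ range (e + 1), j = ∑ j ∈ range e, (j + 1) := by
      rw [sum_range_succ', add_zero]
    rw [h1, ← h2, sum_range_id, Nat.choose_two_right]
  · rintro ⟨j, i⟩ _ ⟨j', i'⟩ _ h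
    simp only [Prod.mk.injEq] at h
    obtain ⟨h1, h2⟩ := h
    have h3 : j = j' := by exact_mod_cast h2
    subst h3
    have h4 : i = i' := by omega
    rw [h4]

/-- absorption, independence -/
theorem sur_abs {ι : Type} [Fintype ι] {w : ι → ℕ} {lam : ℝ} {d e : ℕ} (h3e : 3 * e ≤ d)
    (h : Sur w (RS lam d e)) : Sur (fun o : Option ι => o.elim e w)
      (Reg (-(lam * ((d : ℝ) / 3))) ((9 - lam) * ((d : ℝ) / 3)) lam (9 - lam)) := by
  classical
  obtain ⟨T, h1, h2, h3⟩ := h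
  have hT : ∀ p ∈ T, 0 ≤ p.2 ∧ al lam d p.2 + ((e - p.2.toNat : ℕ) : ℤ) ≤ p.1 ∧
      p.1 ≤ UU lam d p.2.toNat := by
    intro p hp
    obtain ⟨g1, g2, g3⟩ := h1 (mem_coe.2 hp)
    refine ⟨g1, ?_, g3⟩
    rw [LL_eq, Int.toNat_of_nonneg g1] at g2
    exact g2
  have hle : ∀ p ∈ T ∪ tri lam d e, 0 ≤ p.2 ∧ al lam d p.2 ≤ p.1 := by
    intro p hp
    rcases mem_union.1 hp with hp | hp
    · obtain ⟨g1, g2, -⟩ := hT p hp
      exact ⟨g1, by omega⟩
    · obtain ⟨j, i, g1, g2, rfl⟩ := mem_tri.1 hp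
      exact ⟨Int.natCast_nonneg j, by simp only; omega⟩
  refine ⟨T ∪ tri lam d e, ?_, ?_, ?_⟩
  · intro p hp
    rw [mem_coe] at hp
    obtain ⟨g1, g2⟩ := hle p hp
    refine ⟨g1, ?_, ?_⟩
    · have g3 := Int.le_ceil (-(lam * ((d : ℝ) / 3 - (p.2 : ℝ))))
      have g4 : ((al lam d p.2 : ℤ) : ℝ) ≤ (p.1 : ℝ) := by exact_mod_cast g2
      unfold al at g4
      linarith
    · rcases mem_union.1 hp with hp | hp
      · obtain ⟨-, -, g3⟩ := hT p hp
        have g4 : (p.1 : ℝ) ≤ ((UU lam d p.2.toNat : ℤ) : ℝ) := by exact_mod_cast g3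
        unfold UU at g4
        have g5 := Int.floor_le ((9 - lam) * ((d : ℝ) / 3 - (p.2.toNat : ℝ)))
        have g6 : ((p.2.toNat : ℕ) : ℝ) = (p.2 : ℝ) := by
          have : ((p.2.toNat : ℕ) : ℤ) = p.2 := Int.toNat_of_nonneg g1
          exact_mod_cast this
        rw [g6] at g4 g5
        linarith
      · obtain ⟨j, i, g3, g4, rfl⟩ := mem_tri.1 hp
        have g5 := Int.ceil_lt_add_one (-(lam * ((d : ℝ) / 3 - ((j : ℤ) : ℝ))))
        simp only
        unfold al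
        push_cast at g5 ⊢
        have g6 : (i : ℝ) + 1 + j ≤ e := by exact_mod_cast (by omega : i + 1 + j ≤ e)
        have g7 : (j : ℝ) + 1 ≤ e := by exact_mod_cast (by omega : j + 1 ≤ e)
        have g8 : 3 * (e : ℝ) ≤ d := by exact_mod_cast h3e
        linarith
  · rw [card_union_of_disjoint, h2, card_tri]
    · unfold Pool.Agent.TH603.Sur.cond
      rw [Fintype.sum_option]
      simp only [Option.elim_none, Option.elim_some]
      rw [add_comm]
    · rw [disjoint_left]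
      intro p hp hp'
      obtain ⟨j, i, g3, g4, rfl⟩ := mem_tri.1 hp'
      obtain ⟨-, g2, -⟩ := hT _ hp
      simp only [Int.toNat_natCast] at g2
      omega
  · refine Pool.Agent.TH102.DP.Emp_absorb e (finite_toSet _) (fun p hp => (hle p (mem_coe.1 hp)).1)
      (al lam d) (fun p hp => (hle p (mem_coe.1 hp)).2) ?_ h3
    intro p hp hpe
    rw [mem_coe] at hp ⊢
    rcases mem_union.1 hp with hp | hp
    · exact hp
    · exfalso
      obtain ⟨j, i, g3, g4, rfl⟩ := mem_tri.1 hp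
      simp only at hpe
      omega

theorem LL_mono {lam K : ℝ} {k : ℕ} {v : ℤ} (hlam : (k : ℝ) * lam + v = K) (h9 : 9 * (k : ℝ) ≤ K)
    (d e j i δ : ℕ) : LL lam d e (j + k * i) + v * (i : ℤ) ≤
      LL lam d e (j + k * (i + δ)) + v * ((i + δ : ℕ) : ℤ) := by
  have hδ : (0 : ℝ) ≤ δ := Nat.cast_nonneg δ
  have hk : (0 : ℝ) ≤ k := Nat.cast_nonneg k
  have h1 : ⌈-(lam * ((d : ℝ) / 3 - ((j + k * i : ℕ) : ℝ)))⌉ ≤
      ⌈-(lam * ((d : ℝ) / 3 - ((j + k * (i + δ) : ℕ) : ℝ)))⌉ + v * δ - k * δ := by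
    rw [Int.ceil_le]
    push_cast
    have h2 := Int.le_ceil (-(lam * ((d : ℝ) / 3 - ((j : ℝ) + k * (i + δ)))))
    have h3 : ((k : ℝ) * lam + v) * δ = K * δ := by rw [hlam]
    have h4 : 9 * (k : ℝ) * δ ≤ K * δ := mul_le_mul_of_nonneg_right h9 hδ
    have h5 : 0 ≤ (k : ℝ) * δ := mul_nonneg hk hδ
    linarith
  have h2 : j + k * (i + δ) = j + k * i + k * δ := by ring
  have h3 : ((e - (j + k * i) : ℕ) : ℤ) ≤ ((e - (j + k * (i + δ)) : ℕ) : ℤ) + ((k * δ : ℕ) : ℤ) := by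
    rw [h2]; omega
  unfold LL
  push_cast at h1 h3 ⊢
  linarith

theorem UU_mono {lam K : ℝ} {k : ℕ} {v : ℤ} (hlam : (k : ℝ) * lam + v = K) (h9 : 9 * (k : ℝ) ≤ K)
    (d j i δ : ℕ) : UU lam d (j + k * i) + v * (i : ℤ) ≤
      UU lam d (j + k * (i + δ)) + v * ((i + δ : ℕ) : ℤ) := by
  have hδ : (0 : ℝ) ≤ δ := Nat.cast_nonneg δ
  have h1 : ⌊(9 - lam) * ((d : ℝ) / 3 - ((j + k * i : ℕ) : ℝ))⌋ - v * δ ≤
      ⌊(9 - lam) * ((d : ℝ) / 3 - ((j + k * (i + δ) : ℕ) : ℝ))⌋ := by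
    rw [Int.le_floor]
    push_cast
    have h2 := Int.floor_le ((9 - lam) * ((d : ℝ) / 3 - ((j : ℝ) + k * i)))
    have h3 : ((k : ℝ) * lam + v) * δ = K * δ := by rw [hlam]
    have h4 : 9 * (k : ℝ) * δ ≤ K * δ := mul_le_mul_of_nonneg_right h9 hδ
    linarith
  unfold UU
  push_cast at h1 ⊢
  linarith

theorem geoS : S_GEOS := by
  classical
  intro k v K lam hk hcop hlam h9 hl3 hl6 hirr d e m r h3e hrow
  have hirr' : Irrational (lam / 3 - 1) := by
    have h1 := (hirr.div_natCast (m := 3) (by norm_num)).sub_natCast 1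
    have h2 : lam / ((3 : ℕ) : ℝ) - ((1 : ℕ) : ℝ) = lam / 3 - 1 := by push_cast; ring
    rw [h2] at h1
    exact h1
  refine Pool.Agent.TH885.NW.keyS (Option (Fin r)) _ d (lam / 3 - 1) (by linarith) (by linarith)
    hirr' ?_
  have e1 : Reg (-((d : ℝ) * (1 + (lam / 3 - 1)))) (d * (2 - (lam / 3 - 1)))
      (3 * (1 + (lam / 3 - 1))) (3 * (2 - (lam / 3 - 1))) =
      Reg (-(lam * ((d : ℝ) / 3))) ((9 - lam) * ((d : ℝ) / 3)) lam (9 - lam) := by
    congr 1 <;> ring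
  rw [e1]
  apply sur_abs h3e
  obtain ⟨a, b, hab⟩ := hcop
  have hSur : Sur (fun _ : Fin r => m) (Op ((r * m : ℕ) : ℝ) (r : ℝ)) := by
    have h1 := Pool.Agent.TH641.NW.Sur_Op (fun _ : Fin r => m) m (fun _ => Nat.le_succ m)
      (n' := (r : ℝ)) (by simp)
    have h2 : ∑ _i : Fin r, max m m = r * m := by simp
    rw [h2] at h1
    exact h1
  refine Sur_slabs (k : ℤ) v a b (by linear_combination hab) ?_ hSur
  rintro ⟨p, t⟩ ⟨hp, ht, hpt⟩
  simp only at hp ht hpt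
  obtain ⟨T, rfl⟩ := Int.eq_ofNat_of_zero_le ht
  have hpt' : p + (r : ℤ) * T < (r : ℤ) * m := by exact_mod_cast hpt
  have hTm : T < m := by
    by_contra hcon
    have h1 : (r : ℤ) * m ≤ r * T :=
      mul_le_mul_of_nonneg_left (by exact_mod_cast not_lt.1 hcon) (Int.natCast_nonneg r)
    omega
  obtain ⟨B, hB1, hB2⟩ := hrow T hTm
  simp only
  refine ⟨hp, ht, ((range k).sigma B).image fun q => (k : ℤ) * q.2 + v * (q.1 : ℤ), ?_, ?_⟩
  · rw [card_image_of_injOn, card_sigma]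
    · have h1 : (r : ℤ) * ((m : ℤ) - T) ≤ ((∑ j ∈ range k, (B j).card : ℕ) : ℤ) := by
        have h2 : ((m - T : ℕ) : ℤ) = (m : ℤ) - T := by omega
        rw [← h2]
        exact_mod_cast hB2
      have h3 : (r : ℤ) * ((m : ℤ) - T) = r * m - r * T := by ring
      omega
    · rintro ⟨j, z⟩ hq ⟨j', z'⟩ hq' he
      rw [mem_coe, mem_sigma, mem_range] at hq hq'
      simp only at hq hq' he
      have h1 : (k : ℤ) * (z - z') = v * ((j' : ℤ) - j) := by linear_combination he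
      have h2 : (k : ℤ) ∣ ((j' : ℤ) - j) := by
        have hc : IsCoprime (k : ℤ) v := ⟨a, b, hab⟩
        exact hc.dvd_of_dvd_mul_left (Dvd.intro _ h1)
      have h3 : (j' : ℤ) - j = 0 := by
        apply Int.eq_zero_of_abs_lt_dvd h2
        rw [abs_lt]
        constructor <;> omega
      have h4 : j = j' := by omega
      subst h4
      rw [sub_self, mul_zero] at h1
      have h5 : z = z' := by
        rcases mul_eq_zero.1 h1 with h6 | h6
        · omega
        · omega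
      rw [h5]
  · intro c hc
    rw [mem_image] at hc
    obtain ⟨⟨j, z⟩, hq, rfl⟩ := hc
    rw [mem_sigma, mem_range] at hq
    simp only at hq
    obtain ⟨i, hi1, hi2⟩ := hB1 j hq.1 z hq.2
    refine ⟨(i : ℤ) - b * z + a * j, fun s hs1 hs2 => ?_⟩
    obtain ⟨δ, hδ⟩ := Int.eq_ofNat_of_zero_le (show 0 ≤ s - ((i : ℤ) - b * z + a * j) by linarith)
    have hs : s = ((i + δ : ℕ) : ℤ) - b * z + a * j := by push_cast; linarith
    have hδT : δ ≤ T := by
      have : (δ : ℤ) ≤ T := by linarith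
      exact_mod_cast this
    obtain ⟨η, hη⟩ := Nat.exists_eq_add_of_le hδT
    have e2 : a * ((k : ℤ) * z + v * (j : ℤ)) - v * s = z - v * ((i + δ : ℕ) : ℤ) := by
      rw [hs]; linear_combination z * hab
    have e3 : b * ((k : ℤ) * z + v * (j : ℤ)) + (k : ℤ) * s = ((j + k * (i + δ) : ℕ) : ℤ) := by
      rw [hs]; push_cast; linear_combination (j : ℤ) * hab
    simp only
    rw [e2, e3]
    refine ⟨Int.natCast_nonneg _, ?_, ?_⟩
    · simp only [Int.toNat_natCast]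
      have h1 := LL_mono hlam h9 d e j (i + δ) η
      have h2 : i + δ + η = i + T := by omega
      rw [h2] at h1
      linarith
    · simp only [Int.toNat_natCast]
      have h1 := UU_mono hlam h9 d j i δ
      linarith

end Pool.Agent.TH761.UM
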